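import Pool.Agent.L7h62.SD.Defs

/-!
# Prime ideals of polynomial rings which avoid one variable
-/

set_option autoImplicit false

open Polynomial

namespace Pool.Agent.L7h65.SD

/-- A nonzero prime ideal of `R[X]` which meets `R` in zero is principal. -/
theorem poly_pri {R : Type*} [CommRing R] [IsDomain R] [UniqueFactorizationMonoid R]
    (J : Ideal R[X]) (hJ : J.IsPrime) (h0 : J ≠ ⊥) (hC : ∀ r : R, C r ∈ J → r = 0) :
    ∃ p : R[X], Prime p ∧ J = Ideal.span {p} := by
  classical
  obtain ⟨p, hpJ, hp⟩ := hJ.exists_mem_prime_of_ne_bot h0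
  refine ⟨p, hp, le_antisymm ?_ ((Ideal.span_singleton_le_iff_mem J).2 hpJ)⟩
  have hdeg : p.natDegree ≠ 0 := by
    intro h
    rw [eq_C_of_natDegree_eq_zero h] at hpJ hp
    rw [hC _ hpJ, C_0] at hp
    exact hp.ne_zero rfl
  have hprim : p.IsPrimitive := hp.irreducible.isPrimitive hdeg
  have : IsGCDMonoid R := inferInstance
  have hirr := (hprim.irreducible_iff_irreducible_map_fraction_map (K := FractionRing R)).1
    hp.irreducible
  intro F hF
  rw [Ideal.mem_span_singleton]
  apply hprim.dvd_of_fraction_map_dvd_fraction_map (K := FractionRing R)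
  by_contra hnd
  obtain ⟨a, b, hab⟩ := (hirr.coprime_iff_not_dvd).2 hnd
  obtain ⟨c, hc0, hc⟩ := IsLocalization.integerNormalization_spec (nonZeroDivisors R) a
  obtain ⟨d, hd0, hd⟩ := IsLocalization.integerNormalization_spec (nonZeroDivisors R) b
  rw [Algebra.smul_def, Polynomial.algebraMap_apply] at hc hd
  rw [mem_nonZeroDivisors_iff_ne_zero] at hc0 hd0
  set a' := IsLocalization.integerNormalization (nonZeroDivisors R) a
  set b' := IsLocalization.integerNormalization (nonZeroDivisors R) b
  have h1 : C (c * d) = C d * a' * p + C c * b' * F := by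
    apply map_injective (algebraMap R (FractionRing R)) (IsFractionRing.injective _ _) _
    simp only [Polynomial.map_mul, Polynomial.map_add, hc, hd, map_C, C_mul, map_mul]
    linear_combination (-(C (algebraMap R (FractionRing R) c)) *
      C (algebraMap R (FractionRing R) d)) * hab
  have h2 : C (c * d) ∈ J := by
    rw [h1]
    exact J.add_mem (J.mul_mem_left _ hpJ) (J.mul_mem_left _ hF)
  exact mul_ne_zero hc0 hd0 (hC _ h2)

open MvPolynomial in
theorem s_PRI : Pool.Agent.L7h62.SD.S_PRI := by
  intro σ _ z I hI h0 hz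
  classical
  let e : MvPolynomial σ ℂ ≃ₐ[ℂ] Polynomial (MvPolynomial {y // y ≠ z} ℂ) :=
    (renameEquiv ℂ (Equiv.optionSubtypeNe z).symm).trans (optionEquivLeft ℂ {y // y ≠ z})
  have hsymm : ∀ r : MvPolynomial {y // y ≠ z} ℂ,
      e.symm (Polynomial.C r) = rename Subtype.val r := by
    intro r
    rw [AlgEquiv.symm_apply_eq]
    show Polynomial.C r = optionEquivLeft ℂ {y // y ≠ z}
      (rename (Equiv.optionSubtypeNe z).symm (rename Subtype.val r))
    rw [rename_rename]
    have : ((Equiv.optionSubtypeNe z).symm ∘ Subtype.val : {y // y ≠ z} → Option {y // y ≠ z}) =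
        some := by
      funext y
      exact Equiv.optionSubtypeNe_symm_of_ne y.2
    rw [this]
    induction r using MvPolynomial.induction_on with
    | C a => simp
    | add p q hp hq => rw [Polynomial.C_add, hp, hq, map_add, map_add]
    | mul_X p i hp => rw [Polynomial.C_mul, hp, map_mul, map_mul, rename_X, optionEquivLeft_X_some]
  set J : Ideal (Polynomial (MvPolynomial {y // y ≠ z} ℂ)) := I.comap e.symm with hJ
  have hJp : J.IsPrime := Ideal.IsPrime.comap _
  have hJ0 : J ≠ ⊥ := by
    intro h
    apply h0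
    rw [eq_bot_iff]
    intro x hx
    have h1 : e x ∈ J := by
      rw [hJ, Ideal.mem_comap, AlgEquiv.symm_apply_apply]; exact hx
    rw [h, Ideal.mem_bot] at h1
    rw [Ideal.mem_bot]
    exact (map_eq_zero_iff e e.injective).1 h1
  have hJC : ∀ r, Polynomial.C r ∈ J → r = 0 := by
    intro r hr
    rw [hJ, Ideal.mem_comap] at hr
    have h1 : e.symm (Polynomial.C r) = 0 := by
      refine hz _ hr ?_
      rw [hsymm]
      intro hmem
      have := vars_rename _ _ hmem
      rw [Finset.mem_image] at this
      obtain ⟨y, -, hy⟩ := this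
      exact y.2 hy
    have h2 := (map_eq_zero_iff e.symm e.symm.injective).1 h1
    exact Polynomial.C_eq_zero.1 h2
  obtain ⟨p, hp, hJp'⟩ := poly_pri J hJp hJ0 hJC
  refine ⟨e.symm p, ?_, ?_⟩
  · exact (MulEquiv.prime_iff e.symm.toMulEquiv).2 hp
  · ext x
    have h1 : x ∈ I ↔ e x ∈ J := by
      rw [hJ, Ideal.mem_comap, AlgEquiv.symm_apply_apply]
    rw [h1, hJp', Ideal.mem_span_singleton, Ideal.mem_span_singleton]
    constructor
    · rintro ⟨q, hq⟩
      refine ⟨e.symm q, ?_⟩
      rw [← map_mul, ← hq, AlgEquiv.symm_apply_apply]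
    · rintro ⟨q, hq⟩
      refine ⟨e q, ?_⟩
      rw [hq, map_mul, AlgEquiv.apply_symm_apply]

end Pool.Agent.L7h65.SD
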